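import Mathlib
import Pool.Agent.Lib.MP_5deb1d_nt.Fin
import Pool.Agent.Lib.MP_5deb1d_nt.V13

/-!
The logarithmic average of `|log R(q)|` over the primes is at most `4 log(5/4)`.
-/

set_option autoImplicit false

open NumberField Finset

namespace Pool.Agent.Results.MP_5deb1d_nt.AbsMean

/-- Kummer's ratio `R(q) = (h(q)/h⁺(q)) / G(q)`, `G(q) = 2 q (q/(4π²))^((q-1)/4)`: `h(q)` is the class number of the `q`-th
cyclotomic field and `h⁺(q)` the class number of its maximal real subfield. -/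
noncomputable def R (q : ℕ) : ℝ :=
  ((classNumber (CyclotomicField q ℚ) : ℝ) / (classNumber (maximalRealSubfield (CyclotomicField q ℚ)) : ℝ)) /
    (2 * (q : ℝ) * ((q : ℝ) / (4 * Real.pi ^ 2)) ^ (((q : ℝ) - 1) / 4))

/-- the primes `3 ≤ q ≤ X` -/
def P (X : ℕ) : Finset ℕ := (Icc 3 X).filter Nat.Prime

open Pool.Agent.Lib.MP_5deb1d_nt in
/-- For every `ε > 0` there is `X₀` with `∑ |log R(q)|/q ≤ (4 log(5/4) + ε) log log X` for all `X ≥ X₀`, the sum over the primes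
`3 ≤ q ≤ X`. -/
theorem result (ε : ℝ) (hε : 0 < ε) : ∃ X₀ : ℕ, ∀ X : ℕ, X₀ ≤ X →
    ∑ q ∈ P X, |Real.log (R q)| / q ≤ (4 * Real.log (5 / 4) + ε) * Real.log (Real.log X) := by
  obtain ⟨X0, h0⟩ := mean_abs2 ε hε
  refine ⟨X0, fun X hX => ?_⟩
  have h1 : ∑ q ∈ P X, |Real.log (R q)| / q = ∑ q ∈ Pr X, |rq q| / q := sum_R_abs X
  rw [h1]
  exact h0 X hX

end Pool.Agent.Results.MP_5deb1d_nt.AbsMean
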