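import Mathlib
import Pool.Agent.Lib.MP_5deb1d_nt.Fin
import Pool.Agent.Lib.MP_5deb1d_nt.V15

/-!
For almost all primes `q` Kummer's ratio `R(q)` lies between `1/4 - ε` and `4 + ε`; the exceptional primes are negligible even with
the weight `1 + |log R(q)|`.
-/

set_option autoImplicit false

open NumberField Finset Filter Topology

namespace Pool.Agent.Results.MP_5deb1d_nt.AlmostAll

/-- Kummer's ratio `R(q) = (h(q)/h⁺(q)) / G(q)`, `G(q) = 2 q (q/(4π²))^((q-1)/4)`: `h(q)` is the class number of the `q`-th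
cyclotomic field and `h⁺(q)` the class number of its maximal real subfield. -/
noncomputable def R (q : ℕ) : ℝ :=
  ((classNumber (CyclotomicField q ℚ) : ℝ) / (classNumber (maximalRealSubfield (CyclotomicField q ℚ)) : ℝ)) /
    (2 * (q : ℝ) * ((q : ℝ) / (4 * Real.pi ^ 2)) ^ (((q : ℝ) - 1) / 4))

/-- the primes `3 ≤ q ≤ X` -/
def P (X : ℕ) : Finset ℕ := (Icc 3 X).filter Nat.Prime

open Pool.Agent.Lib.MP_5deb1d_nt in
private theorem log_large (ε : ℝ) (hε : 0 < ε) (q : ℕ) (hp : q.Prime) (h3 : 3 ≤ q) (hq2 : R q < 1 / 4 - ε ∨ 4 + ε < R q) :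
    Real.log (R q) = rq q ∧ 2 * Real.log 2 + Real.log (1 + ε / 4) < |rq q| := by
  have hlog : Real.log (R q) = rq q := log_R q hp h3
  refine ⟨hlog, ?_⟩
  obtain ⟨δ, hδd⟩ : ∃ δ : ℝ, δ = Real.log (1 + ε / 4) := ⟨_, rfl⟩
  rw [← hδd]
  have hδ : 0 < δ := by
    rw [hδd]
    exact Real.log_pos (by linarith)
  have hR0 : 0 < R q := R_pos q hp.pos
  have h2 : 2 * Real.log 2 = Real.log 4 := by
    rw [show (4 : ℝ) = 2 ^ 2 by norm_num, Real.log_pow]
    norm_num
  have he : Real.exp δ = 1 + ε / 4 := by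
    rw [hδd]
    exact Real.exp_log (by positivity)
  have hδε : δ ≤ ε / 4 := by
    have := Real.log_le_sub_one_of_pos (show 0 < 1 + ε / 4 by positivity)
    linarith
  rcases hq2 with h | h
  · have e1 : 1 / 4 - ε ≤ Real.exp (-(Real.log 4 + δ)) := by
      rw [neg_add, Real.exp_add, Real.exp_neg, Real.exp_log (by norm_num)]
      have := Real.add_one_le_exp (-δ)
      nlinarith
    have e2 : Real.log (R q) < -(Real.log 4 + δ) := by
      rw [Real.log_lt_iff_lt_exp hR0]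
      exact h.trans_le e1
    rw [h2, ← hlog]
    exact lt_abs.2 (Or.inr (by linarith))
  · have e1 : Real.exp (Real.log 4 + δ) ≤ 4 + ε := by
      rw [Real.exp_add, Real.exp_log (by norm_num)]
      nlinarith
    have e2 : Real.log 4 + δ < Real.log (R q) := by
      rw [Real.lt_log_iff_exp_lt hR0]
      exact e1.trans_lt h
    rw [h2, ← hlog]
    exact lt_abs.2 (Or.inl e2)

open Pool.Agent.Lib.MP_5deb1d_nt in
private theorem sum_le (ε : ℝ) (hε : 0 < ε) : ∃ C : ℝ, 0 < C ∧ ∀ X : ℕ,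
    ∑ q ∈ (P X).filter (fun q => R q < 1 / 4 - ε ∨ 4 + ε < R q), (1 + |Real.log (R q)|) ≤
      C * ∑ q ∈ Pr X, max 0 (|rq q| - 2 * Real.log 2) := by
  obtain ⟨δ, hδd⟩ : ∃ δ : ℝ, δ = Real.log (1 + ε / 4) := ⟨_, rfl⟩
  have hδ : 0 < δ := by
    rw [hδd]
    exact Real.log_pos (by linarith)
  have hl2 : 0 < Real.log 2 := Real.log_pos (by norm_num)
  refine ⟨(1 + 2 * Real.log 2) / δ + 1, by positivity, fun X => ?_⟩
  rw [mul_sum]
  have hmem : ∀ q ∈ (P X).filter (fun q => R q < 1 / 4 - ε ∨ 4 + ε < R q), q.Prime ∧ 3 ≤ q ∧ q ≤ X := by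
    intro q hq
    rw [mem_filter] at hq
    have hqP := hq.1
    unfold P at hqP
    rw [mem_filter, mem_Icc] at hqP
    exact ⟨hqP.2, hqP.1.1, hqP.1.2⟩
  calc ∑ q ∈ (P X).filter (fun q => R q < 1 / 4 - ε ∨ 4 + ε < R q), (1 + |Real.log (R q)|)
      ≤ ∑ q ∈ (P X).filter (fun q => R q < 1 / 4 - ε ∨ 4 + ε < R q),
          ((1 + 2 * Real.log 2) / δ + 1) * max 0 (|rq q| - 2 * Real.log 2) := by
        apply sum_le_sum
        intro q hq
        obtain ⟨hp, h3, _⟩ := hmem q hq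
        obtain ⟨h4, h5⟩ := log_large ε hε q hp h3 (mem_filter.1 hq).2
        rw [← hδd] at h5
        rw [h4]
        have h6 : |rq q| - 2 * Real.log 2 ≤ max 0 (|rq q| - 2 * Real.log 2) := le_max_right _ _
        have h7 : 1 + 2 * Real.log 2 ≤ (1 + 2 * Real.log 2) / δ * (|rq q| - 2 * Real.log 2) := by
          rw [div_mul_eq_mul_div, le_div_iff₀ hδ]
          apply mul_le_mul_of_nonneg_left _ (by positivity)
          linarith
        have h8 : ((1 + 2 * Real.log 2) / δ + 1) * (|rq q| - 2 * Real.log 2) ≤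
            ((1 + 2 * Real.log 2) / δ + 1) * max 0 (|rq q| - 2 * Real.log 2) :=
          mul_le_mul_of_nonneg_left h6 (by positivity)
        linarith
    _ ≤ ∑ q ∈ Pr X, ((1 + 2 * Real.log 2) / δ + 1) * max 0 (|rq q| - 2 * Real.log 2) := by
        apply sum_le_sum_of_subset_of_nonneg
        · intro q hq
          obtain ⟨hp, _, hX⟩ := hmem q hq
          exact mem_Pr.2 ⟨hp, hX⟩
        · intro q _ _
          have : 0 ≤ max 0 (|rq q| - 2 * Real.log 2) := le_max_left _ _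
          positivity

open Pool.Agent.Lib.MP_5deb1d_nt in
/-- For every `ε > 0` the sum of `1 + |log R(q)|` over the primes `3 ≤ q ≤ X` with `R(q) < 1/4 - ε` or `R(q) > 4 + ε`, divided by
`π(X)`, tends to `0` as `X → ∞`. -/
theorem result (ε : ℝ) (hε : 0 < ε) :
    Tendsto (fun X : ℕ => (∑ q ∈ (P X).filter (fun q => R q < 1 / 4 - ε ∨ 4 + ε < R q), (1 + |Real.log (R q)|)) /
      (Nat.primeCounting X : ℝ)) atTop (𝓝 0) := by
  obtain ⟨C, hC, hs⟩ := sum_le ε hε
  rw [Metric.tendsto_atTop]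
  intro η hη
  obtain ⟨X0, h0⟩ := nat_excess (η / (2 * C)) (by positivity)
  refine ⟨max X0 2, fun X hX => ?_⟩
  have hπ : (0 : ℝ) < (Nat.primeCounting X : ℝ) := by
    have h2 : 2 ≤ X := (le_max_right _ _).trans hX
    have h3 : Nat.primeCounting X ≠ 0 := by
      rw [Ne, Nat.primeCounting_eq_zero_iff]
      omega
    exact_mod_cast Nat.pos_of_ne_zero h3
  have h1 := hs X
  have h2 := mul_le_mul_of_nonneg_left (h0 X ((le_max_left _ _).trans hX)) hC.le
  have h3 : C * (η / (2 * C) * (Nat.primeCounting X : ℝ)) = η / 2 * (Nat.primeCounting X : ℝ) := by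
    field_simp
  have h4 : 0 ≤ ∑ q ∈ (P X).filter (fun q => R q < 1 / 4 - ε ∨ 4 + ε < R q), (1 + |Real.log (R q)|) :=
    sum_nonneg fun q _ => by positivity
  rw [Real.dist_eq, sub_zero, abs_of_nonneg (by positivity), div_lt_iff₀ hπ]
  nlinarith

end Pool.Agent.Results.MP_5deb1d_nt.AlmostAll
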