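import Mathlib
import Pool.Agent.Lib.MP_5deb1d_nt.Fin
import Pool.Agent.Lib.MP_5deb1d_nt.V13

/-!
Kummer's conjecture on logarithmic average: the sum of `log R(q) / q` over the primes `q ≤ X` equals one half of the difference of
the sums of `1/p` over the primes `p ≤ X` for which `p - 1`, respectively `p + 1`, has a prime factor `q > √p`, up to
`o(log log X)`, and is at most `(2 log(35/32) + ε) log log X` in absolute value.
-/

set_option autoImplicit false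

open NumberField Finset

namespace Pool.Agent.Results.MP_5deb1d_nt.LogMean

/-- Kummer's ratio `R(q) = (h(q)/h⁺(q)) / G(q)`, `G(q) = 2 q (q/(4π²))^((q-1)/4)`: `h(q)` is the class number of the `q`-th
cyclotomic field and `h⁺(q)` the class number of its maximal real subfield. -/
noncomputable def R (q : ℕ) : ℝ :=
  ((classNumber (CyclotomicField q ℚ) : ℝ) / (classNumber (maximalRealSubfield (CyclotomicField q ℚ)) : ℝ)) /
    (2 * (q : ℝ) * ((q : ℝ) / (4 * Real.pi ^ 2)) ^ (((q : ℝ) - 1) / 4))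

/-- the primes `3 ≤ q ≤ X` -/
def P (X : ℕ) : Finset ℕ := (Icc 3 X).filter Nat.Prime

open Classical in
/-- `∑ 1/p` over the primes `p ≤ X` for which some prime `q` with `p < q²` divides `p - 1` -/
noncomputable def Sminus (X : ℕ) : ℝ :=
  ∑ p ∈ (Icc 1 X).filter (fun p => p.Prime ∧ ∃ q : ℕ, q.Prime ∧ q ∣ p - 1 ∧ p < q ^ 2), 1 / (p : ℝ)

open Classical in
/-- `∑ 1/p` over the primes `p ≤ X` for which some prime `q` with `p < q²` divides `p + 1` -/
noncomputable def Splus (X : ℕ) : ℝ :=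
  ∑ p ∈ (Icc 1 X).filter (fun p => p.Prime ∧ ∃ q : ℕ, q.Prime ∧ q ∣ p + 1 ∧ p < q ^ 2), 1 / (p : ℝ)

open Pool.Agent.Lib.MP_5deb1d_nt in
private theorem Sminus_eq (X : ℕ) : Sminus X = SS true X := by
  unfold Sminus SS
  apply sum_congr _ (fun _ _ => rfl)
  ext p
  simp only [mem_filter, mem_Icc, mem_Pr, Ax, sh, cond_true]
  constructor
  · rintro ⟨⟨_, h2⟩, h3, h4⟩
    exact ⟨⟨h3, h2⟩, h4⟩
  · rintro ⟨⟨h3, h2⟩, h4⟩
    exact ⟨⟨h3.one_lt.le, h2⟩, h3, h4⟩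

open Pool.Agent.Lib.MP_5deb1d_nt in
private theorem Splus_eq (X : ℕ) : Splus X = SS false X := by
  unfold Splus SS
  apply sum_congr _ (fun _ _ => rfl)
  ext p
  simp only [mem_filter, mem_Icc, mem_Pr, Ax, sh, cond_false]
  constructor
  · rintro ⟨⟨_, h2⟩, h3, h4⟩
    exact ⟨⟨h3, h2⟩, h4⟩
  · rintro ⟨⟨h3, h2⟩, h4⟩
    exact ⟨⟨h3.one_lt.le, h2⟩, h3, h4⟩

open Pool.Agent.Lib.MP_5deb1d_nt in
private theorem sum_eq (X : ℕ) : ∑ q ∈ P X, Real.log (R q) / q = ∑ q ∈ Pr X, rq q / q := sum_R X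

open Pool.Agent.Lib.MP_5deb1d_nt in
/-- For every `ε > 0` there is `X₀` such that for all `X ≥ X₀`, with sums over the primes `3 ≤ q ≤ X`:
(1) `|∑ log R(q)/q - (Sminus X - Splus X)/2| ≤ ε log log X`;
(2) `|∑ log R(q)/q| ≤ (2 log(35/32) + ε) log log X`. -/
theorem result (ε : ℝ) (hε : 0 < ε) : ∃ X₀ : ℕ, ∀ X : ℕ, X₀ ≤ X →
    |∑ q ∈ P X, Real.log (R q) / q - (Sminus X - Splus X) / 2| ≤ ε * Real.log (Real.log X) ∧
    |∑ q ∈ P X, Real.log (R q) / q| ≤ (2 * Real.log (35 / 32) + ε) * Real.log (Real.log X) := by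
  obtain ⟨X1, h1⟩ := mean_exact ε hε
  obtain ⟨X2, h2⟩ := mean_bound2 ε hε
  refine ⟨max X1 X2, fun X hX => ⟨?_, ?_⟩⟩
  · rw [sum_eq, Sminus_eq, Splus_eq]
    exact h1 X ((le_max_left _ _).trans hX)
  · rw [sum_eq]
    exact h2 X ((le_max_right _ _).trans hX)

end Pool.Agent.Results.MP_5deb1d_nt.LogMean
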