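import Mathlib
import Pool.Agent.Lib.MP_5deb1d_nt.Fin
import Pool.Agent.Lib.MP_5deb1d_nt.V14

/-!
For every `c > 2 log(35/32)` Kummer's ratio satisfies `log R(q) ≤ c` for a positive proportion of the primes, and `log R(q) ≥ -c` for a
positive proportion of the primes (lower logarithmic density).
-/

set_option autoImplicit false

open NumberField Finset Filter

namespace Pool.Agent.Results.MP_5deb1d_nt.Proportion

/-- Kummer's ratio `R(q) = (h(q)/h⁺(q)) / G(q)`, `G(q) = 2 q (q/(4π²))^((q-1)/4)`: `h(q)` is the class number of the `q`-th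
cyclotomic field and `h⁺(q)` the class number of its maximal real subfield. -/
noncomputable def R (q : ℕ) : ℝ :=
  ((classNumber (CyclotomicField q ℚ) : ℝ) / (classNumber (maximalRealSubfield (CyclotomicField q ℚ)) : ℝ)) /
    (2 * (q : ℝ) * ((q : ℝ) / (4 * Real.pi ^ 2)) ^ (((q : ℝ) - 1) / 4))

/-- the primes `3 ≤ q ≤ X` -/
def P (X : ℕ) : Finset ℕ := (Icc 3 X).filter Nat.Prime

open Classical in
open Pool.Agent.Lib.MP_5deb1d_nt in
private theorem drop_two (X : ℕ) (p : ℕ → Prop) (p' : ℕ → Prop) (h : ∀ q : ℕ, q.Prime → 3 ≤ q → (p q → p' q)) :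
    ∑ q ∈ (Pr X).filter p, 1 / (q : ℝ) ≤ ∑ q ∈ (P X).filter p', 1 / (q : ℝ) + 1 := by
  have h1 : (Pr X).filter p ⊆ insert 2 ((P X).filter p') := by
    intro q hq
    rw [mem_filter, mem_Pr] at hq
    rw [mem_insert]
    by_cases h2 : q = 2
    · exact Or.inl h2
    · right
      have := hq.1.1.two_le
      rw [mem_filter]
      unfold P
      rw [mem_filter, mem_Icc]
      exact ⟨⟨⟨by omega, hq.1.2⟩, hq.1.1⟩, h q hq.1.1 (by omega) hq.2⟩
  calc ∑ q ∈ (Pr X).filter p, 1 / (q : ℝ) ≤ ∑ q ∈ insert 2 ((P X).filter p'), 1 / (q : ℝ) :=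
        sum_le_sum_of_subset_of_nonneg h1 (fun q _ _ => by positivity)
    _ ≤ ∑ q ∈ (P X).filter p', 1 / (q : ℝ) + 1 := by
        by_cases h2 : 2 ∈ (P X).filter p'
        · rw [insert_eq_of_mem h2]
          linarith
        · rw [sum_insert h2]
          norm_num
          linarith

open Classical in
open Pool.Agent.Lib.MP_5deb1d_nt in
/-- For `c > 2 log(35/32)` and `ε > 0` there is `X₀` such that for all `X ≥ X₀` the sum of `1/q` over the primes `3 ≤ q ≤ X` with
`log R(q) ≤ c` is at least `((c - 2 log(35/32))/(c + 2 log 2) - ε) log log X`, and so is the sum over those with `log R(q) ≥ -c`. -/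
theorem result (c ε : ℝ) (hc : 2 * Real.log (35 / 32) < c) (hε : 0 < ε) : ∃ X₀ : ℕ, ∀ X : ℕ, X₀ ≤ X →
    ((c - 2 * Real.log (35 / 32)) / (c + 2 * Real.log 2) - ε) * Real.log (Real.log X) ≤
      ∑ q ∈ (P X).filter (fun q => Real.log (R q) ≤ c), 1 / (q : ℝ) ∧
    ((c - 2 * Real.log (35 / 32)) / (c + 2 * Real.log 2) - ε) * Real.log (Real.log X) ≤
      ∑ q ∈ (P X).filter (fun q => -c ≤ Real.log (R q)), 1 / (q : ℝ) := by
  obtain ⟨X1, h1⟩ := pos_prop2 c (ε / 2) hc (by positivity)
  obtain ⟨X2, h2⟩ := eventually_atTop.1 ((Real.tendsto_log_atTop.comp (Real.tendsto_log_atTop.comp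
    tendsto_natCast_atTop_atTop)).eventually_ge_atTop (2 / ε))
  refine ⟨max X1 X2, fun X hX => ?_⟩
  have hL : 2 / ε ≤ Real.log (Real.log X) := h2 X ((le_max_right _ _).trans hX)
  have hL2 : 1 ≤ ε / 2 * Real.log (Real.log X) := by
    calc (1 : ℝ) = ε / 2 * (2 / ε) := by field_simp
      _ ≤ _ := mul_le_mul_of_nonneg_left hL (by positivity)
  obtain ⟨h3, h4⟩ := h1 X ((le_max_left _ _).trans hX)
  constructor
  · have h5 := drop_two X (fun q => rq q ≤ c) (fun q => Real.log (R q) ≤ c) (fun q hq hq3 h => by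
      have h6 : Real.log (R q) = rq q := log_R q hq hq3
      rw [h6]
      exact h)
    nlinarith
  · have h5 := drop_two X (fun q => -c ≤ rq q) (fun q => -c ≤ Real.log (R q)) (fun q hq hq3 h => by
      have h6 : Real.log (R q) = rq q := log_R q hq hq3
      rw [h6]
      exact h)
    nlinarith

end Pool.Agent.Results.MP_5deb1d_nt.Proportion
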